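import Pool.Agent.H770.GS.TF

/-!
# Project TF, part TF8: complete the square
-/

set_option autoImplicit false

namespace Pool.Agent.H84.TF

open Pool.Agent.H770.GS

theorem s_TF8 : S_TF8 := by
  intro ε b τ k hk hS hf
  unfold II
  generalize cf ε (b * τ) = g at hf ⊢
  generalize cf ε τ = f
  generalize Real.sinc (b * τ) = T at hS ⊢
  have hs : Real.sin τ = τ * Real.sinc τ := by
    by_cases h : τ = 0
    · simp [h]
    · rw [Real.sinc_of_ne_zero h]; field_simp
  rw [hs]
  generalize Real.sinc τ = S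
  have hp : 0 ≤ g ^ (k - 1) := pow_nonneg hf _
  have e : g ^ (k + 1) = g ^ (k - 1) * g ^ 2 := by
    rw [← pow_add]; congr 1; omega
  rw [e]
  have hd : τ ^ 2 * f * g ^ (k - 1) * (f * T - g * S) +
      (τ * S) ^ 2 / 4 * (g ^ (k - 1) * g ^ 2) / T =
      τ ^ 2 * g ^ (k - 1) * (T * (f - g * S / (2 * T)) ^ 2) := by
    field_simp
    ring
  have hn : 0 ≤ τ ^ 2 * g ^ (k - 1) * (T * (f - g * S / (2 * T)) ^ 2) := by positivity
  linarith

end Pool.Agent.H84.TF
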